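import Pool.Agent.H8.PL.Targets

set_option autoImplicit false

namespace Pool.Agent.H81.PL

open Pool.Agent.H8.PL

private lemma hty_inner {W x : ℕ} (h0 : 0 < x) (h1 : x + 1 < W) : hty W x = 1 ∨ hty W x = 2 := by
  unfold hty
  rw [if_neg (by omega), if_neg (by omega)]
  split_ifs <;> simp

theorem pf_ct : Z_CT := by
  intro V _ G lb W H g D
  have hW := D.w
  have hH := D.h
  let f : (Fin W × Fin H) ⊕ (Fin (W - 2) × Fin (H - 2)) → V :=
    Sum.elim (fun p => g true p.1 p.2) (fun p => g false (p.1 + 1) (p.2 + 1))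
  have hx : ∀ x : Fin (W - 2), (x : ℕ) + 1 + 1 < W := fun x => by omega
  have hy : ∀ y : Fin (H - 2), (y : ℕ) + 1 + 1 < H := fun y => by omega
  have hne : ∀ (p : Fin W × Fin H) (q : Fin (W - 2) × Fin (H - 2)),
      g true p.1 p.2 ≠ g false (q.1 + 1) (q.2 + 1) := by
    intro p q h
    have hq1 := hx q.1
    have hq2 := hy q.2
    have t1 := D.ty false (q.1 + 1) (by omega) (q.2 + 1) (by omega)
    have o1 := D.on false (q.1 + 1) (by omega) (q.2 + 1) (by omega)
    have o2 := D.on true p.1 p.1.2 p.2 p.2.2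
    rw [h] at o2
    have hm : mid (lb (g false (q.1 + 1) (q.2 + 1))) := by
      refine ⟨?_, ?_⟩
      · rw [t1.1]; exact hty_inner (by omega) hq1
      · rw [t1.2]; exact hty_inner (by omega) hq2
    have a := o1 hm
    have b := o2 hm
    rw [a] at b
    exact absurd b (by decide)
  have hinj : Function.Injective f := by
    rintro (p | p) (q | q) h
    · have h' : g true p.1 p.2 = g true q.1 q.2 := h
      obtain ⟨h1, h2⟩ := D.inj true p.1 p.1.2 p.2 p.2.2 q.1 q.1.2 q.2 q.2.2 h'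
      exact congrArg Sum.inl (Prod.ext (Fin.ext h1) (Fin.ext h2))
    · exact absurd h (hne p q)
    · exact absurd h.symm (hne q p)
    · have h' : g false (p.1 + 1) (p.2 + 1) = g false (q.1 + 1) (q.2 + 1) := h
      have hp1 := hx p.1
      have hp2 := hy p.2
      have hq1 := hx q.1
      have hq2 := hy q.2
      obtain ⟨h1, h2⟩ := D.inj false (p.1 + 1) (by omega) (p.2 + 1) (by omega) (q.1 + 1) (by omega)
        (q.2 + 1) (by omega) h'
      exact congrArg Sum.inr (Prod.ext (Fin.ext (by omega)) (Fin.ext (by omega)))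
  have hsur : Function.Surjective f := by
    intro z
    obtain ⟨s, x, hx, y, hy, rfl⟩ := D.sur z
    cases s with
    | true => exact ⟨Sum.inl (⟨x, hx⟩, ⟨y, hy⟩), rfl⟩
    | false =>
      by_cases hb : x = 0 ∨ x + 1 = W ∨ y = 0 ∨ y + 1 = H
      · exact ⟨Sum.inl (⟨x, hx⟩, ⟨y, hy⟩), D.bd x hx y hy hb⟩
      · push Not at hb
        refine ⟨Sum.inr (⟨x - 1, by omega⟩, ⟨y - 1, by omega⟩), ?_⟩
        show g false (x - 1 + 1) (y - 1 + 1) = g false x y
        congr 1 <;> omega
  have hc : Nat.card V = W * H + (W - 2) * (H - 2) := by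
    rw [← Nat.card_congr (Equiv.ofBijective f ⟨hinj, hsur⟩), Nat.card_sum, Nat.card_prod,
      Nat.card_prod, Nat.card_fin, Nat.card_fin, Nat.card_fin, Nat.card_fin]
  rw [hc]
  obtain ⟨w, rfl⟩ : ∃ w, W = w + 2 := ⟨W - 2, by omega⟩
  obtain ⟨h, rfl⟩ : ∃ h, H = h + 2 := ⟨H - 2, by omega⟩
  simp only [Nat.add_sub_cancel]
  ring

end Pool.Agent.H81.PL
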