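import Pool.Agent.H8.PL.Targets
import Pool.Agent.H84.TW.PB

set_option autoImplicit false

namespace Pool.Agent.H81.PL

open Pool.Agent.H8.PL Pool.Agent.H69.Sp Pool.Agent.H69.Mt Pool.Agent.H16.TO Pool.Agent.H84.TW

theorem fd_pb (r : ℕ) :
    FD (fun _ _ v => 4 ≤ v 1 ∧ v 2 = 2 * (v 1 ^ r - 1) ^ 2 + 2) := by
  refine ((FD.ex 3 ((FD.num 4 3).and (FD.le 3 1))).and
    (FD.ex 3 (FD.ex 4 (FD.ex 5 (FD.ex 6 (FD.ex 7 ((fd_pow r 1 3).and ((FD.succ 4 3).and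
      ((FD.mul 4 4 5).and ((FD.num 2 6).and ((FD.mul 6 5 7).and (FD.add 7 6 2)))))))))))).congr
    fun N E v hv => ?_
  simp only [Function.update_self, Function.update_of_ne, ne_eq, not_false_eq_true,
    OfNat.one_ne_ofNat, Nat.reduceEqDiff]
  constructor
  · rintro ⟨⟨a, _, rfl, h1⟩, t, _, u, _, w, _, z, _, y, _, ⟨_, h2⟩, h3, h4, h5, h6, h7⟩
    refine ⟨h1, ?_⟩
    have hu : v 1 ^ r - 1 = u := by omega
    rw [hu, ← h7, ← h6, ← h4, h5]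
    ring
  · rintro ⟨h1, h2⟩
    have h3 : 1 ≤ v 1 ^ r := Nat.one_le_pow _ _ (by omega)
    have h4 := hv 2
    obtain ⟨u, hu⟩ : ∃ u, v 1 ^ r = u + 1 := ⟨v 1 ^ r - 1, by omega⟩
    rw [hu, Nat.add_sub_cancel] at h2
    have h5 : u ≤ u * u := by
      rcases Nat.eq_zero_or_pos u with h | h
      · simp [h]
      · exact Nat.le_mul_of_pos_left u h
    have h6 : v 2 = 2 * (u * u) + 2 := by rw [h2]; ring
    have h7 := hv 1
    refine ⟨⟨4, by omega, rfl, h1⟩, u + 1, by omega, u, by omega, u * u, by omega, 2, by omega,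
      2 * (u * u), by omega, ⟨by omega, hu.symm⟩, rfl, rfl, rfl, rfl, h6.symm⟩

theorem pf_pb : Z_PB := by
  intro X hX r _
  refine wrapT (P := fun N _ m => ∃ y, y < N ∧ ((4 ≤ m ∧ y = 2 * (m ^ r - 1) ^ 2 + 2) ∧ y ∈ X))
    ?_ ?_ (2 * r + 2) fun m hm => ?_
  · refine (ED.ex 2 ((fd_pb r).ed.and (mem_ed hX 2))).congr fun N E v hv => ?_
    simp only [Function.update_self, Function.update_of_ne, ne_eq, not_false_eq_true,
      OfNat.one_ne_ofNat]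
  · rintro ⟨h, _⟩
    omega
  · have hlt : 2 * (m ^ r - 1) ^ 2 + 2 < (m ^ 2 ^ (2 * r + 2)) ^ 8 := by
      have h0 : 1 ≤ m ^ r := Nat.one_le_pow _ _ (by omega)
      have h1 : 2 * (m ^ r - 1) ^ 2 + 2 ≤ 4 * (m ^ r) ^ 2 := by
        obtain ⟨u, hu⟩ : ∃ u, m ^ r = u + 1 := ⟨m ^ r - 1, by omega⟩
        rw [hu, Nat.add_sub_cancel]
        nlinarith
      have h2 : 4 * (m ^ r) ^ 2 ≤ m ^ (2 * r + 2) := by
        rw [pow_add, pow_mul', mul_comm]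
        apply Nat.mul_le_mul_left
        nlinarith
      have h3 : m ^ (2 * r + 2) ≤ m ^ 2 ^ (2 * r + 2) :=
        Nat.pow_le_pow_right (by omega) (Nat.lt_two_pow_self (n := 2 * r + 2)).le
      have h4 : 1 < m ^ 2 ^ (2 * r + 2) := Nat.one_lt_pow (by positivity) (by omega)
      calc 2 * (m ^ r - 1) ^ 2 + 2 ≤ m ^ 2 ^ (2 * r + 2) := h1.trans (h2.trans h3)
        _ = (m ^ 2 ^ (2 * r + 2)) ^ 1 := (pow_one _).symm
        _ < (m ^ 2 ^ (2 * r + 2)) ^ 8 := Nat.pow_lt_pow_right h4 (by norm_num)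
    constructor
    · rintro ⟨h1, h2⟩
      exact ⟨fun _ _ => False, _, hlt, ⟨h1, rfl⟩, h2⟩
    · rintro ⟨_, y, _, ⟨h1, rfl⟩, h2⟩
      exact ⟨h1, h2⟩

end Pool.Agent.H81.PL
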